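import Pool.Agent.Helper57.QZ.Stmts

/-!
# Row AR: pointwise bounds outside a small set
-/

set_option autoImplicit false

namespace Pool.Agent.Helper33.QZ

open MeasureTheory Set Filter Topology Complex
open Pool.Agent.Helper57.QZ

/-- the upper half plane -/
def U : Set ℂ := {s : ℂ | 0 < s.im}

theorem isOpen_U : IsOpen U := isOpen_lt continuous_const continuous_im

theorem pt_im (x t : ℝ) : (pt x t).im = t := by simp [pt]
theorem pt_re (x t : ℝ) : (pt x t).re = x := by simp [pt]

/-- the square of the absolute value, clamped -/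
noncomputable def G (F : ℂ → ℂ) (x t : ℝ) : ℝ := ‖F (pt x (max t 1))‖ ^ 2

theorem G_nonneg (F : ℂ → ℂ) (x t : ℝ) : 0 ≤ G F x t := by unfold G; positivity

theorem G_eq (F : ℂ → ℂ) (x : ℝ) {t : ℝ} (ht : 1 ≤ t) : G F x t = ‖F (pt x t)‖ ^ 2 := by
  unfold G; rw [max_eq_left ht]

theorem G_cont {F : ℂ → ℂ} (hF : DifferentiableOn ℂ F U) :
    Continuous (fun q : ℝ × ℝ => G F q.1 q.2) := by
  unfold G
  have h1 : Continuous (fun q : ℝ × ℝ => pt q.1 (max q.2 1)) := by unfold pt; fun_prop
  have h2 : ∀ q : ℝ × ℝ, pt q.1 (max q.2 1) ∈ U := by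
    intro q
    change 0 < (pt q.1 (max q.2 1)).im
    rw [pt_im]
    exact lt_of_lt_of_le one_pos (le_max_right _ _)
  exact (hF.continuousOn.comp_continuous h1 h2).norm.pow 2

theorem G_cont' {F : ℂ → ℂ} (hF : DifferentiableOn ℂ F U) {α : Type*} [TopologicalSpace α]
    {u v : α → ℝ} (hu : Continuous u) (hv : Continuous v) :
    Continuous (fun q : α => G F (u q) (v q)) := (G_cont hF).comp (hu.prodMk hv)

theorem ball_sub {s : ℂ} {ρ : ℝ} (h : ρ < s.im) : Metric.closedBall s ρ ⊆ U := by
  intro z hz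
  rw [Metric.mem_closedBall, dist_eq_norm] at hz
  have h1 := (abs_le.1 ((abs_im_le_norm (z - s)).trans hz)).1
  rw [sub_im] at h1
  change 0 < z.im
  linarith

/-- mean value inequality for the derivative -/
theorem mv {F : ℂ → ℂ} (hF : DifferentiableOn ℂ F U) {s : ℂ} {ρ : ℝ} (hρ : 0 < ρ)
    (h : ρ < s.im) :
    2 * Real.pi * ρ ^ 2 * ‖deriv F s‖ ^ 2 ≤
      ∫ θ in (0:ℝ)..(2 * Real.pi), ‖F (circleMap s ρ θ)‖ ^ 2 := by
  have hsub := ball_sub h
  have hform := (hF.mono hsub).deriv_eq_smul_circleIntegral hρ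
  have hpi := Real.pi_pos
  have hc : Continuous (fun θ : ℝ => F (circleMap s ρ θ)) := by
    refine (hF.continuousOn.mono hsub).comp_continuous (continuous_circleMap s ρ) ?_
    intro θ
    exact circleMap_mem_closedBall s hρ.le θ
  have h1 : 2 * Real.pi * ‖deriv F s‖ ≤
      ∫ θ in (0:ℝ)..(2 * Real.pi), ρ⁻¹ * ‖F (circleMap s ρ θ)‖ := by
    have h2 : ‖(2 * Real.pi * I : ℂ) • deriv F s‖ = 2 * Real.pi * ‖deriv F s‖ := by
      rw [norm_smul]
      simp [abs_of_pos hpi]
    rw [← h2, ← hform, circleIntegral]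
    refine (intervalIntegral.norm_integral_le_integral_norm (by positivity)).trans (le_of_eq ?_)
    refine intervalIntegral.integral_congr fun θ _ => ?_
    have h3 : circleMap s ρ θ - s = circleMap 0 ρ θ := by simp [circleMap]
    simp only [norm_smul, deriv_circleMap, norm_mul, norm_I, mul_one, h3, norm_div, norm_pow,
      norm_one, norm_circleMap_zero, abs_of_pos hρ]
    field_simp
  rw [intervalIntegral.integral_const_mul] at h1
  set A := ρ * ‖deriv F s‖ with hA
  have hA0 : 0 ≤ A := by positivity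
  have h4 : 2 * Real.pi * A ≤ ∫ θ in (0:ℝ)..(2 * Real.pi), ‖F (circleMap s ρ θ)‖ := by
    have := mul_le_mul_of_nonneg_left h1 hρ.le
    rw [← mul_assoc ρ ρ⁻¹, mul_inv_cancel₀ hρ.ne', one_mul] at this
    rw [hA]; linarith
  have h5 : ∫ θ in (0:ℝ)..(2 * Real.pi), (2 * A * ‖F (circleMap s ρ θ)‖ - A ^ 2) ≤
      ∫ θ in (0:ℝ)..(2 * Real.pi), ‖F (circleMap s ρ θ)‖ ^ 2 := by
    refine intervalIntegral.integral_mono_on (by positivity) ?_ ?_ fun θ _ => ?_
    · exact Continuous.intervalIntegrable ((continuous_const.mul hc.norm).sub continuous_const) _ _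
    · exact Continuous.intervalIntegrable (hc.norm.pow 2) _ _
    · nlinarith [sq_nonneg (A - ‖F (circleMap s ρ θ)‖)]
  have ii1 : IntervalIntegrable (fun θ => 2 * A * ‖F (circleMap s ρ θ)‖) volume 0
      (2 * Real.pi) := Continuous.intervalIntegrable (continuous_const.mul hc.norm) _ _
  have ii2 : IntervalIntegrable (fun _ : ℝ => A ^ 2) volume 0 (2 * Real.pi) :=
    Continuous.intervalIntegrable continuous_const _ _
  rw [intervalIntegral.integral_sub ii1 ii2, intervalIntegral.integral_const_mul,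
    intervalIntegral.integral_const, sub_zero, smul_eq_mul] at h5
  have h6 := mul_le_mul_of_nonneg_left h4 (by positivity : 0 ≤ 2 * A)
  have h7 : 2 * Real.pi * ρ ^ 2 * ‖deriv F s‖ ^ 2 = 2 * Real.pi * A ^ 2 := by rw [hA]; ring
  rw [h7]
  linarith

theorem circ_pt (x t ρ θ : ℝ) :
    circleMap (pt x t) ρ θ = pt (x + ρ * Real.cos θ) (t + ρ * Real.sin θ) := by
  apply Complex.ext
  · simp only [circleMap, pt, add_re, ofReal_re, mul_re, I_re, ofReal_im, I_im,
      exp_ofReal_mul_I_re, exp_ofReal_mul_I_im]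
    ring
  · simp only [circleMap, pt, add_im, ofReal_re, mul_im, I_re, ofReal_im, I_im,
      exp_ofReal_mul_I_re, exp_ofReal_mul_I_im]
    ring

/-- mean squares of the derivative on vertical lines -/
theorem lineD {F : ℂ → ℂ} (hF : DifferentiableOn ℂ F U) {ρ a b T1 T2 M : ℝ} (hρ : 0 < ρ)
    (hT : 1 ≤ T1 - ρ) (hT12 : T1 ≤ T2)
    (hM : ∀ x ∈ Icc (a - ρ) (b + ρ), ∫ t in (T1 - ρ)..(T2 + ρ), G F x t ≤ M) :
    ∀ x ∈ Icc a b, ∫ t in T1..T2, G (deriv F) x t ≤ M / ρ ^ 2 := by
  intro x hx
  have hpi := Real.pi_pos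
  have hF' : DifferentiableOn ℂ (deriv F) U := hF.deriv isOpen_U
  have k1 : ∫ t in T1..T2, 2 * Real.pi * ρ ^ 2 * G (deriv F) x t ≤
      ∫ t in T1..T2, ∫ θ in (0:ℝ)..(2 * Real.pi),
        G F (x + ρ * Real.cos θ) (t + ρ * Real.sin θ) := by
    refine intervalIntegral.integral_mono_on hT12 ?_ ?_ fun t ht => ?_
    · exact Continuous.intervalIntegrable
        (continuous_const.mul (G_cont' hF' continuous_const continuous_id)) _ _
    · refine Continuous.intervalIntegrable ?_ _ _
      refine intervalIntegral.continuous_parametric_intervalIntegral_of_continuous' ?_ _ _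
      exact G_cont' hF (by fun_prop) (by fun_prop)
    · rw [G_eq _ _ (by linarith [ht.1] : 1 ≤ t)]
      refine (mv hF hρ (by rw [pt_im]; linarith [ht.1])).trans (le_of_eq ?_)
      refine intervalIntegral.integral_congr fun θ _ => ?_
      have hs := Real.neg_one_le_sin θ
      rw [circ_pt, G_eq _ _ (by nlinarith [ht.1] : 1 ≤ t + ρ * Real.sin θ)]
  rw [intervalIntegral.integral_const_mul] at k1
  have k2 : ∫ t in T1..T2, ∫ θ in (0:ℝ)..(2 * Real.pi),
      G F (x + ρ * Real.cos θ) (t + ρ * Real.sin θ) ≤ 2 * Real.pi * M := by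
    rw [intervalIntegral_intervalIntegral_swap]
    · have k3 : ∫ θ in (0:ℝ)..(2 * Real.pi), ∫ t in T1..T2,
          G F (x + ρ * Real.cos θ) (t + ρ * Real.sin θ) ≤ ∫ θ in (0:ℝ)..(2 * Real.pi), M := by
        refine intervalIntegral.integral_mono_on (by positivity) ?_ ?_ fun θ _ => ?_
        · refine Continuous.intervalIntegrable ?_ _ _
          refine intervalIntegral.continuous_parametric_intervalIntegral_of_continuous' ?_ _ _
          exact G_cont' hF (by fun_prop) (by fun_prop)
        · exact Continuous.intervalIntegrable continuous_const _ _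
        · have hs1 := Real.neg_one_le_sin θ
          have hs2 := Real.sin_le_one θ
          have hc1 := Real.neg_one_le_cos θ
          have hc2 := Real.cos_le_one θ
          rw [intervalIntegral.integral_comp_add_right
            (fun t => G F (x + ρ * Real.cos θ) t) (ρ * Real.sin θ)]
          refine le_trans ?_ (hM (x + ρ * Real.cos θ) ⟨by nlinarith [hx.1], by nlinarith [hx.2]⟩)
          refine intervalIntegral.integral_mono_interval (by nlinarith) (by linarith)
            (by nlinarith) (Eventually.of_forall fun t => G_nonneg _ _ _) ?_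
          exact Continuous.intervalIntegrable (G_cont' hF continuous_const continuous_id) _ _
      refine k3.trans (le_of_eq ?_)
      rw [intervalIntegral.integral_const, sub_zero, smul_eq_mul]
    · have hcont : Continuous (fun q : ℝ × ℝ =>
          G F (x + ρ * Real.cos q.2) (q.1 + ρ * Real.sin q.2)) :=
        G_cont' hF (by fun_prop) (by fun_prop)
      have : IntegrableOn (fun q : ℝ × ℝ =>
          G F (x + ρ * Real.cos q.2) (q.1 + ρ * Real.sin q.2))
          (Icc T1 T2 ×ˢ Icc 0 (2 * Real.pi)) :=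
        hcont.continuousOn.integrableOn_compact (isCompact_Icc.prod isCompact_Icc)
      refine this.mono_set (prod_mono ?_ ?_)
      · rw [uIoc_of_le hT12]; exact Ioc_subset_Icc_self
      · rw [uIoc_of_le (by positivity)]; exact Ioc_subset_Icc_self
  have k4 : 2 * Real.pi * (ρ ^ 2 * ∫ t in T1..T2, G (deriv F) x t) ≤ 2 * Real.pi * M := by
    rw [← mul_assoc]; exact k1.trans k2
  have k5 := le_of_mul_le_mul_left k4 (by positivity)
  rw [le_div_iff₀ (by positivity), mul_comm]
  exact k5

/-- pointwise bound on a horizontal line -/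
theorem pw {F : ℂ → ℂ} (hF : DifferentiableOn ℂ F U) {a t κ : ℝ} (ht : 1 ≤ t) (hκ : 0 < κ)
    (ha : 0 ≤ a) (h1 : G F 1 t ≤ κ ^ 2)
    (h2 : ∫ x in a..1, G (deriv F) x t ≤ κ ^ 2) : ∀ σ ∈ Icc a 1, ‖F (pt σ t)‖ ≤ 2 * κ := by
  intro σ hσ
  have hF' : DifferentiableOn ℂ (deriv F) U := hF.deriv isOpen_U
  have hU : ∀ x : ℝ, pt x t ∈ U := fun x => by
    change 0 < (pt x t).im
    rw [pt_im]; linarith
  have hptc : Continuous (fun x : ℝ => pt x t) := by unfold pt; fun_prop
  have hder : ∀ x : ℝ, HasDerivAt (fun x : ℝ => F (pt x t)) (deriv F (pt x t)) x := by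
    intro x
    have h3 := (hF.differentiableAt (isOpen_U.mem_nhds (hU x))).hasDerivAt
    have h4 : HasDerivAt (fun z : ℂ => F (z + (t : ℂ) * I)) (deriv F (pt x t)) (x : ℂ) :=
      HasDerivAt.comp_add_const (x : ℂ) ((t : ℂ) * I) h3
    exact h4.comp_ofReal
  have hc' : Continuous (fun x : ℝ => deriv F (pt x t)) :=
    hF'.continuousOn.comp_continuous hptc hU
  have hftc : ∫ x in σ..1, deriv F (pt x t) = F (pt 1 t) - F (pt σ t) :=
    intervalIntegral.integral_eq_sub_of_hasDerivAt (fun x _ => hder x)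
      (hc'.intervalIntegrable _ _)
  have e1 : ‖F (pt 1 t)‖ ≤ κ := by
    rw [G_eq _ _ ht] at h1
    exact le_of_sq_le_sq h1 hκ.le
  have e2 : ‖∫ x in σ..1, deriv F (pt x t)‖ ≤ κ := by
    refine (intervalIntegral.norm_integral_le_integral_norm hσ.2).trans ?_
    have e3 : ∫ x in σ..1, ‖deriv F (pt x t)‖ ≤
        ∫ x in σ..1, ((2 * κ)⁻¹ * G (deriv F) x t + κ / 2) := by
      refine intervalIntegral.integral_mono_on hσ.2 ?_ ?_ fun x _ => ?_
      · exact hc'.norm.intervalIntegrable _ _
      · exact Continuous.intervalIntegrable ((continuous_const.mul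
          (G_cont' hF' continuous_id continuous_const)).add continuous_const) _ _
      · rw [G_eq _ _ ht]
        have := sq_nonneg (‖deriv F (pt x t)‖ - κ)
        rw [← sub_nonneg]
        have e4 : (2 * κ)⁻¹ * ‖deriv F (pt x t)‖ ^ 2 + κ / 2 - ‖deriv F (pt x t)‖ =
            (2 * κ)⁻¹ * (‖deriv F (pt x t)‖ - κ) ^ 2 := by field_simp; ring
        rw [e4]; positivity
    have ii1 : IntervalIntegrable (fun x => (2 * κ)⁻¹ * G (deriv F) x t) volume σ 1 :=
      Continuous.intervalIntegrable (continuous_const.mul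
          (G_cont' hF' continuous_id continuous_const)) _ _
    have ii2 : IntervalIntegrable (fun _ : ℝ => κ / 2) volume σ 1 :=
      Continuous.intervalIntegrable continuous_const _ _
    rw [intervalIntegral.integral_add ii1 ii2,
      intervalIntegral.integral_const_mul, intervalIntegral.integral_const, smul_eq_mul] at e3
    have e5 : ∫ x in σ..1, G (deriv F) x t ≤ κ ^ 2 := by
      refine le_trans ?_ h2
      exact intervalIntegral.integral_mono_interval hσ.1 hσ.2 le_rfl
        (Eventually.of_forall fun x => G_nonneg _ _ _)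
        (Continuous.intervalIntegrable (G_cont' hF' continuous_id continuous_const) _ _)
    have e6 : (2 * κ)⁻¹ * ∫ x in σ..1, G (deriv F) x t ≤ (2 * κ)⁻¹ * κ ^ 2 :=
      mul_le_mul_of_nonneg_left e5 (by positivity)
    have e7 : (2 * κ)⁻¹ * κ ^ 2 = κ / 2 := by field_simp
    have e8 : (1 - σ) * (κ / 2) ≤ 1 * (κ / 2) :=
      mul_le_mul_of_nonneg_right (by linarith [hσ.1]) (by positivity)
    linarith
  have e9 : F (pt σ t) = F (pt 1 t) - ∫ x in σ..1, deriv F (pt x t) := by rw [hftc]; ring
  rw [e9]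
  refine (norm_sub_le _ _).trans ?_
  linarith

theorem Fy_diff (y : ℕ) : DifferentiableOn ℂ (Fy y) U := by
  intro s hs
  have h1 : s ≠ 1 := by
    rintro rfl
    have : (0:ℝ) < (1 : ℂ).im := hs
    simp at this
  refine DifferentiableAt.differentiableWithinAt ?_
  unfold Fy
  refine ((differentiableAt_riemannZeta h1).mul ?_).sub_const 1
  refine DifferentiableAt.fun_finsetProd fun p _ => ?_
  have hp : (((p : ℕ) : ℂ)) ≠ 0 := by
    have := Nat.prime_of_mem_primesBelow p.2
    exact_mod_cast this.ne_zero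
  exact (differentiableAt_const _).sub
    (DifferentiableAt.const_cpow differentiableAt_id.neg (Or.inl hp))

end Pool.Agent.Helper33.QZ

namespace Pool.Agent.Helper57.QZ

open MeasureTheory Set Filter Topology
open Pool.Agent.Helper33.QZ

theorem ar_of (h1 : ST_MS) : ST_AR := by
  intro ε hε η hη κ hκ
  set ρ : ℝ := ε / 4 with hρd
  have hρ : 0 < ρ := by rw [hρd]; linarith [hε.1]
  have hρ1 : ρ < 1 / 8 := by rw [hρd]; linarith [hε.2]
  set k : ℝ := η / 2 with hkd
  have hk : 0 < k := by rw [hkd]; linarith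
  set κ' : ℝ := κ * k ^ 2 / (1 + 2 / ρ ^ 2 + 1 / ρ ^ 4) with hκ'
  have hκ'0 : 0 < κ' := by rw [hκ']; positivity
  obtain ⟨y₀, hC₀⟩ := h1 (ε / 2) ⟨by linarith [hε.1], by linarith [hε.2]⟩ κ' hκ'0
  refine ⟨y₀, fun y hy => ?_⟩
  obtain ⟨T₀, hT₀, hMS⟩ := hC₀ y hy
  refine ⟨max T₀ 4, le_trans hT₀ (le_max_left _ _), fun T hT => ?_⟩
  have hTT : T₀ ≤ T := (le_max_left _ _).trans hT
  have hT4 : 4 ≤ T := (le_max_right _ _).trans hT
  have hF := Fy_diff y
  set F := Fy y with hFd
  have hF' : DifferentiableOn ℂ (deriv F) U := hF.deriv isOpen_U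
  have hF'' : DifferentiableOn ℂ (deriv (deriv F)) U := hF'.deriv isOpen_U
  set M : ℝ := κ' * T with hMd
  have g0 : ∀ x ∈ Icc (1 / 2 + ε / 2) 2, ∫ t in (T - 1)..(2 * T + 1), G F x t ≤ M := by
    intro x hx
    have h2 := hMS T hTT x hx
    refine le_trans (le_of_eq ?_) h2
    refine intervalIntegral.integral_congr fun t ht => ?_
    rw [uIcc_of_le (by linarith)] at ht
    exact G_eq _ _ (by linarith [ht.1])
  have sub0 : ∀ {u v x : ℝ}, T - 1 ≤ u → u ≤ v → v ≤ 2 * T + 1 → x ∈ Icc (1 / 2 + ε / 2) 2 →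
      ∫ t in u..v, G F x t ≤ M := by
    intro u v x hu huv hv hx
    refine le_trans ?_ (g0 x hx)
    exact intervalIntegral.integral_mono_interval hu huv hv
      (Eventually.of_forall fun x => G_nonneg _ _ _)
      (Continuous.intervalIntegrable (G_cont' hF continuous_const continuous_id) _ _)
  have hM0 : 0 ≤ M := by
    refine le_trans ?_ (sub0 (u := T) (v := 2 * T) (x := 1) (by linarith) (by linarith)
      (by linarith) ⟨by linarith [hε.2], by norm_num⟩)
    exact intervalIntegral.integral_nonneg (by linarith) fun t _ => G_nonneg _ _ _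
  have g1 : ∀ x ∈ Icc (1 / 2 + ε - ρ) (1 + ρ), ∫ t in (T - ρ)..(2 * T + ρ), G (deriv F) x t ≤
      M / ρ ^ 2 := by
    refine lineD hF hρ (by linarith) (by linarith) fun x hx => ?_
    exact sub0 (by linarith) (by linarith) (by linarith)
      ⟨by linarith [hx.1], by linarith [hx.2]⟩
  have g2 : ∀ x ∈ Icc (1 / 2 + ε) 1, ∫ t in T..(2 * T), G (deriv (deriv F)) x t ≤
      M / ρ ^ 2 / ρ ^ 2 := lineD hF' hρ (by linarith) (by linarith) g1
  have g1' : ∀ x ∈ Icc (1 / 2 + ε) 1, ∫ t in T..(2 * T), G (deriv F) x t ≤ M / ρ ^ 2 := by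
    intro x hx
    refine le_trans ?_ (g1 x ⟨by linarith [hx.1], by linarith [hx.2]⟩)
    exact intervalIntegral.integral_mono_interval (by linarith) (by linarith) (by linarith)
      (Eventually.of_forall fun x => G_nonneg _ _ _)
      (Continuous.intervalIntegrable (G_cont' hF' continuous_const continuous_id) _ _)
  set K : ℝ → ℝ → ℝ := fun t x => G (deriv F) x t + G (deriv (deriv F)) x t with hK
  have hKc : Continuous (Function.uncurry K) :=
    (G_cont' hF' continuous_snd continuous_fst).add (G_cont' hF'' continuous_snd continuous_fst)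
  set H : ℝ → ℝ := fun t => G F 1 t + G (deriv F) 1 t + ∫ x in (1 / 2 + ε)..1, K t x with hH
  have hKi : Continuous (fun t => ∫ x in (1 / 2 + ε)..1, K t x) :=
    intervalIntegral.continuous_parametric_intervalIntegral_of_continuous' hKc _ _
  have hHc : Continuous H :=
    ((G_cont' hF continuous_const continuous_id).add
      (G_cont' hF' continuous_const continuous_id)).add hKi
  have hε2 : 1 / 2 + ε ≤ 1 := by linarith [hε.2]
  have hH0 : ∀ t, 0 ≤ H t := fun t => by
    have : 0 ≤ ∫ x in (1 / 2 + ε)..1, K t x :=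
      intervalIntegral.integral_nonneg hε2 fun x _ => add_nonneg (G_nonneg _ _ _) (G_nonneg _ _ _)
    have := G_nonneg F 1 t
    have := G_nonneg (deriv F) 1 t
    simp only [hH]; linarith
  have hint : ∫ t in T..(2 * T), H t ≤ M * (1 + 2 / ρ ^ 2 + 1 / ρ ^ 4) := by
    simp only [hH]
    have ii1 : IntervalIntegrable (fun t => G F 1 t) volume T (2 * T) :=
      Continuous.intervalIntegrable (G_cont' hF continuous_const continuous_id) _ _
    have ii2 : IntervalIntegrable (fun t => G (deriv F) 1 t) volume T (2 * T) :=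
      Continuous.intervalIntegrable (G_cont' hF' continuous_const continuous_id) _ _
    have ii3 : IntervalIntegrable (fun t => G F 1 t + G (deriv F) 1 t) volume T (2 * T) :=
      ii1.add ii2
    have ii4 : IntervalIntegrable (fun t => ∫ x in (1 / 2 + ε)..1, K t x) volume T (2 * T) :=
      hKi.intervalIntegrable _ _
    rw [intervalIntegral.integral_add ii3 ii4, intervalIntegral.integral_add ii1 ii2,
      intervalIntegral_intervalIntegral_swap]
    · have j1 : ∫ t in T..(2 * T), G F 1 t ≤ M :=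
        sub0 (by linarith) (by linarith) (by linarith) ⟨by linarith [hε.2], by norm_num⟩
      have j2 : ∫ t in T..(2 * T), G (deriv F) 1 t ≤ M / ρ ^ 2 := g1' 1 ⟨hε2, le_rfl⟩
      have j3 : ∫ x in (1 / 2 + ε)..1, ∫ t in T..(2 * T), K t x ≤
          ∫ x in (1 / 2 + ε)..1, (M / ρ ^ 2 + M / ρ ^ 2 / ρ ^ 2) := by
        refine intervalIntegral.integral_mono_on hε2 ?_ ?_ fun x hx => ?_
        · refine Continuous.intervalIntegrable ?_ _ _
          refine intervalIntegral.continuous_parametric_intervalIntegral_of_continuous' ?_ _ _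
          exact (G_cont' hF' continuous_fst continuous_snd).add
            (G_cont' hF'' continuous_fst continuous_snd)
        · exact Continuous.intervalIntegrable continuous_const _ _
        · simp only [hK]
          have ii5 : IntervalIntegrable (fun t => G (deriv F) x t) volume T (2 * T) :=
            Continuous.intervalIntegrable (G_cont' hF' continuous_const continuous_id) _ _
          have ii6 : IntervalIntegrable (fun t => G (deriv (deriv F)) x t) volume T (2 * T) :=
            Continuous.intervalIntegrable (G_cont' hF'' continuous_const continuous_id) _ _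
          rw [intervalIntegral.integral_add ii5 ii6]
          exact add_le_add (g1' x hx) (g2 x hx)
      rw [intervalIntegral.integral_const, smul_eq_mul] at j3
      have j4 : (1 - (1 / 2 + ε)) * (M / ρ ^ 2 + M / ρ ^ 2 / ρ ^ 2) ≤
          1 * (M / ρ ^ 2 + M / ρ ^ 2 / ρ ^ 2) :=
        mul_le_mul_of_nonneg_right (by linarith [hε.1]) (by positivity)
      have j5 : M * (1 + 2 / ρ ^ 2 + 1 / ρ ^ 4) =
          M + M / ρ ^ 2 + 1 * (M / ρ ^ 2 + M / ρ ^ 2 / ρ ^ 2) := by field_simp; ring
      rw [j5]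
      linarith
    · have : IntegrableOn (Function.uncurry K) (Icc T (2 * T) ×ˢ Icc (1 / 2 + ε) 1) :=
        hKc.continuousOn.integrableOn_compact (isCompact_Icc.prod isCompact_Icc)
      refine this.mono_set (prod_mono ?_ ?_)
      · rw [uIoc_of_le (by linarith)]; exact Ioc_subset_Icc_self
      · rw [uIoc_of_le hε2]; exact Ioc_subset_Icc_self
  refine ⟨{t | k ^ 2 ≤ H t} ∩ Icc T (2 * T), inter_subset_right, ?_, ?_⟩
  · have h2 := mul_meas_ge_le_integral_of_nonneg (μ := volume.restrict (Icc T (2 * T)))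
      (f := H) (Eventually.of_forall hH0)
      (hHc.continuousOn.integrableOn_compact isCompact_Icc) (k ^ 2)
    rw [measureReal_restrict_apply (measurableSet_le measurable_const hHc.measurable),
      integral_Icc_eq_integral_Ioc, ← intervalIntegral.integral_of_le (by linarith)] at h2
    have h3 := h2.trans hint
    have h4 : volume.real ({t | k ^ 2 ≤ H t} ∩ Icc T (2 * T)) ≤
        M * (1 + 2 / ρ ^ 2 + 1 / ρ ^ 4) / k ^ 2 := by
      rw [le_div_iff₀ (by positivity), mul_comm]; exact h3
    refine h4.trans (le_of_eq ?_)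
    rw [hMd, hκ']
    field_simp
  · intro t ht htE σ hσ
    have h2 : H t < k ^ 2 := by
      by_contra hc
      exact htE ⟨not_lt.1 hc, ht⟩
    have i0 := G_nonneg F 1 t
    have i1 := G_nonneg (deriv F) 1 t
    have hsum : ∫ x in (1 / 2 + ε)..1, K t x =
        (∫ x in (1 / 2 + ε)..1, G (deriv F) x t) +
          ∫ x in (1 / 2 + ε)..1, G (deriv (deriv F)) x t := by
      simp only [hK]
      have ii5 : IntervalIntegrable (fun x => G (deriv F) x t) volume (1 / 2 + ε) 1 :=
        Continuous.intervalIntegrable (G_cont' hF' continuous_id continuous_const) _ _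
      have ii6 : IntervalIntegrable (fun x => G (deriv (deriv F)) x t) volume (1 / 2 + ε) 1 :=
        Continuous.intervalIntegrable (G_cont' hF'' continuous_id continuous_const) _ _
      exact intervalIntegral.integral_add ii5 ii6
    have i2 : 0 ≤ ∫ x in (1 / 2 + ε)..1, G (deriv F) x t :=
      intervalIntegral.integral_nonneg hε2 fun x _ => G_nonneg _ _ _
    have i3 : 0 ≤ ∫ x in (1 / 2 + ε)..1, G (deriv (deriv F)) x t :=
      intervalIntegral.integral_nonneg hε2 fun x _ => G_nonneg _ _ _
    simp only [hH] at h2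
    rw [hsum] at h2
    have ht1 : 1 ≤ t := by linarith [ht.1]
    have hη2 : 2 * k = η := by rw [hkd]; ring
    rw [← hη2]
    exact ⟨pw hF ht1 hk (by linarith [hε.1]) (by linarith) (by linarith) σ hσ,
      pw hF' ht1 hk (by linarith [hε.1]) (by linarith) (by linarith) σ hσ⟩

end Pool.Agent.Helper57.QZ
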